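import Mathlib

/-!
# A connected matroid polytope that is not a cell of any matroid subdivision

We give two connected matroids `M`, `M'` of rank three on eight elements with `P_{M'} ⊊ P_M`
such that no matroid subdivision of `P_M` has `P_{M'}` as a cell.

`M` is the simple matroid whose lines with more than two points are
`045, 167, 246, 257, 347, 356`, and `M'` is obtained from the uniform matroid `U_{3,4}` by
parallel extensions; its parallel classes are `03, 1, 2, 4567`.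
-/

namespace Pool.Agent.Results.MP_454fc7_co.NoCell

open Set

/-! ### Definitions used in the statement -/

/-- The indicator vector `e_B = ∑_{i ∈ B} e_i`. -/
noncomputable def vec {n : ℕ} (B : Set (Fin n)) : Fin n → ℝ := B.indicator (fun _ => 1)

/-- The matroid polytope `P_M`, the convex hull of the indicator vectors of the bases. -/
noncomputable def polytope {n : ℕ} (M : Matroid (Fin n)) : Set (Fin n → ℝ) :=
  convexHull ℝ (vec '' {B | M.IsBase B})

/-- A matroid is connected if it is not a direct sum of two matroids on nonempty ground sets. -/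
def IsConn {α : Type*} (M : Matroid α) : Prop :=
  ¬ ∃ (M₁ M₂ : Matroid α) (h : Disjoint M₁.E M₂.E), M₁.E.Nonempty ∧ M₂.E.Nonempty ∧
    M = M₁.disjointSum M₂ h

/-- `C` is a polytopal complex: a finite collection of polytopes, closed under taking faces, such
that the intersection of any two members is a face of both. -/
structure IsComplex {n : ℕ} (C : Set (Set (Fin n → ℝ))) : Prop where
  finite : C.Finite
  polytopal : ∀ P ∈ C, ∃ V : Set (Fin n → ℝ), V.Finite ∧ P = convexHull ℝ V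
  face : ∀ P ∈ C, ∀ F, IsExposed ℝ P F → F ∈ C
  inter : ∀ P ∈ C, ∀ Q ∈ C, IsExposed ℝ P (P ∩ Q) ∧ IsExposed ℝ Q (P ∩ Q)

/-- `C` is a matroid subdivision of `P_M`: a polytopal complex with union `P_M`, whose vertices
are vertices of `P_M` and each of whose cells (maximal members) is a matroid polytope. -/
structure IsSubdivision {n : ℕ} (M : Matroid (Fin n)) (C : Set (Set (Fin n → ℝ))) : Prop where
  complex : IsComplex C
  union : ⋃₀ C = polytope M
  vertices : ∀ P ∈ C, P.extremePoints ℝ ⊆ (polytope M).extremePoints ℝ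
  matroidal : ∀ P, Maximal (· ∈ C) P → ∃ N : Matroid (Fin n), N.E = univ ∧ P = polytope N

/-! ### General lemmas on matroid polytopes -/

lemma vec_mem {n : ℕ} {M : Matroid (Fin n)} {B : Set (Fin n)} (hB : M.IsBase B) :
    vec B ∈ polytope M := subset_convexHull ℝ _ ⟨B, hB, rfl⟩

/-- A linear inequality valid for the bases is valid on the matroid polytope. -/
lemma func {n : ℕ} {N : Matroid (Fin n)} {z : Fin n → ℝ} (hz : z ∈ polytope N)
    (l : Fin n → ℝ) (c : ℝ) (h : ∀ B, N.IsBase B → ∑ i, l i * vec B i ≤ c) :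
    ∑ i, l i * z i ≤ c := by
  have hconv : Convex ℝ {x : Fin n → ℝ | ∑ i, l i * x i ≤ c} := by
    apply convex_halfSpace_le (f := fun x : Fin n → ℝ => ∑ i, l i * x i)
    constructor
    · intro x y
      simp only [Pi.add_apply, mul_add, Finset.sum_add_distrib]
    · intro a x
      simp only [Pi.smul_apply, smul_eq_mul, Finset.mul_sum]
      refine Finset.sum_congr rfl fun i _ => by ring
  have hsub : vec '' {B | N.IsBase B} ⊆ {x : Fin n → ℝ | ∑ i, l i * x i ≤ c} := by
    rintro _ ⟨B, hB, rfl⟩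
    exact h B hB
  exact convexHull_min hsub hconv hz

/-- The indicator vector of a set lies in the matroid polytope only for bases. -/
lemma isBase_of_vec_mem {n : ℕ} {N : Matroid (Fin n)} {B : Set (Fin n)}
    (h : vec B ∈ polytope N) : N.IsBase B := by
  classical
  by_contra hB
  have key := func h (fun i => 2 * vec B i - 1) ((∑ i, (2 * vec B i - 1) * vec B i) - 1) ?_
  · linarith
  · intro B' hB'
    have hne : ∃ i, (i ∈ B ∧ i ∉ B') ∨ (i ∉ B ∧ i ∈ B') := by
      by_contra hcon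
      push Not at hcon
      have : B = B' := by
        ext i
        constructor
        · intro hi; exact (hcon i).1 hi
        · intro hi
          by_contra hi'
          exact (hcon i).2 hi' hi
      exact hB (this ▸ hB')
    obtain ⟨i, hi⟩ := hne
    have hterm : ∀ j, 0 ≤ (2 * vec B j - 1) * vec B j - (2 * vec B j - 1) * vec B' j := by
      intro j
      by_cases h1 : j ∈ B <;> by_cases h2 : j ∈ B' <;> simp [vec, h1, h2] <;> norm_num
    have hi1 : 1 ≤ (2 * vec B i - 1) * vec B i - (2 * vec B i - 1) * vec B' i := by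
      rcases hi with ⟨h1, h2⟩ | ⟨h1, h2⟩ <;> simp [vec, h1, h2] <;> norm_num
    have hsum := Finset.single_le_sum (s := Finset.univ)
      (f := fun j => (2 * vec B j - 1) * vec B j - (2 * vec B j - 1) * vec B' j)
      (fun j _ => hterm j) (Finset.mem_univ i)
    rw [Finset.sum_sub_distrib] at hsum
    linarith

lemma base_of_polytope_subset {n : ℕ} {N M : Matroid (Fin n)} (h : polytope N ⊆ polytope M)
    {B : Set (Fin n)} (hB : N.IsBase B) : M.IsBase B :=
  isBase_of_vec_mem (h (vec_mem hB))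

/-- Two cells containing the midpoint of two vertices of the first share these vertices. -/
lemma compat {n : ℕ} {M : Matroid (Fin n)} {C : Set (Set (Fin n → ℝ))} (hC : IsSubdivision M C)
    {N₁ N₂ : Matroid (Fin n)} (h₁ : polytope N₁ ∈ C) (h₂ : polytope N₂ ∈ C)
    {B B' : Set (Fin n)} (hB : N₁.IsBase B) (hB' : N₁.IsBase B')
    {z : Fin n → ℝ} (hz : z = (1 / 2 : ℝ) • vec B + (1 / 2 : ℝ) • vec B')
    (hz₂ : z ∈ polytope N₂) : N₂.IsBase B ∧ N₂.IsBase B' := by
  have hext : IsExtreme ℝ (polytope N₁) (polytope N₁ ∩ polytope N₂) :=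
    ((hC.complex.inter _ h₁ _ h₂).1).isExtreme
  have hseg : z ∈ openSegment ℝ (vec B) (vec B') :=
    ⟨1 / 2, 1 / 2, by norm_num, by norm_num, by norm_num, hz.symm⟩
  have hseg' : z ∈ openSegment ℝ (vec B') (vec B) := by
    rw [openSegment_symm]; exact hseg
  have hz₁ : z ∈ polytope N₁ :=
    (convex_convexHull ℝ _).openSegment_subset (vec_mem hB) (vec_mem hB') hseg
  exact ⟨isBase_of_vec_mem (hext.left_mem_of_mem_openSegment (vec_mem hB) (vec_mem hB')
      ⟨hz₁, hz₂⟩ hseg).2,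
    isBase_of_vec_mem (hext.left_mem_of_mem_openSegment (vec_mem hB') (vec_mem hB)
      ⟨hz₁, hz₂⟩ hseg').2⟩

/-- Every point of `P_M` lies in a cell. -/
lemma cover {n : ℕ} {M : Matroid (Fin n)} {C : Set (Set (Fin n → ℝ))} (hC : IsSubdivision M C)
    {z : Fin n → ℝ} (hz : z ∈ polytope M) :
    ∃ N : Matroid (Fin n), polytope N ∈ C ∧ z ∈ polytope N ∧ ∀ B, N.IsBase B → M.IsBase B := by
  rw [← hC.union] at hz
  obtain ⟨P, hP, hzP⟩ := hz
  obtain ⟨Q, hPQ, hQ⟩ := hC.complex.finite.exists_le_maximal hP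
  obtain ⟨N, -, rfl⟩ := hC.matroidal Q hQ
  refine ⟨N, hQ.1, hPQ hzP, fun B hB => base_of_polytope_subset ?_ hB⟩
  rw [← hC.union]
  exact subset_sUnion_of_mem hQ.1

/-- A criterion for connectedness. -/
lemma isConn_of_star {n : ℕ} {M : Matroid (Fin (n + 1))} (hE : M.E = univ)
    (h : ∀ y : Fin (n + 1), y ≠ 0 → ∃ B : Set (Fin (n + 1)), M.IsBase (insert 0 B) ∧
      M.IsBase (insert y B) ∧ 0 ∉ B ∧ y ∉ B) : IsConn M := by
  rintro ⟨M₁, M₂, hd, ⟨x₁, hx₁⟩, ⟨x₂, hx₂⟩, rfl⟩
  have h0 : (0 : Fin (n + 1)) ∈ M₁.E ∪ M₂.E := by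
    have := mem_univ (0 : Fin (n + 1))
    rw [← hE] at this
    simpa using this
  have hdis : ∀ x, x ∈ M₁.E → x ∈ M₂.E → False := fun x h1 h2 =>
    (Set.disjoint_left.1 hd) h1 h2
  rcases h0 with h0 | h0
  · have hx0 : x₂ ≠ 0 := by rintro rfl; exact hdis _ h0 hx₂
    obtain ⟨B, hB0, hBx, h0B, hxB⟩ := h x₂ hx0
    rw [Matroid.disjointSum_isBase_iff] at hB0 hBx
    have e1 : insert 0 B ∩ M₁.E = insert 0 (B ∩ M₁.E) := by
      rw [insert_inter_of_mem h0]
    have e2 : insert x₂ B ∩ M₁.E = B ∩ M₁.E := by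
      rw [insert_inter_of_notMem]
      exact fun hx => hdis _ hx hx₂
    have b1 := hB0.1
    have b2 := hBx.1
    rw [e1] at b1
    rw [e2] at b2
    have := b2.eq_of_subset_isBase b1 (subset_insert _ _)
    have h3 : (0 : Fin (n + 1)) ∈ B ∩ M₁.E := by rw [this]; exact mem_insert _ _
    exact h0B h3.1
  · have hx0 : x₁ ≠ 0 := by rintro rfl; exact hdis _ hx₁ h0
    obtain ⟨B, hB0, hBx, h0B, hxB⟩ := h x₁ hx0
    rw [Matroid.disjointSum_isBase_iff] at hB0 hBx
    have e1 : insert 0 B ∩ M₂.E = insert 0 (B ∩ M₂.E) := by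
      rw [insert_inter_of_mem h0]
    have e2 : insert x₁ B ∩ M₂.E = B ∩ M₂.E := by
      rw [insert_inter_of_notMem]
      exact fun hx => hdis _ hx₁ hx
    have b1 := hB0.2.1
    have b2 := hBx.2.1
    rw [e1] at b1
    rw [e2] at b2
    have := b2.eq_of_subset_isBase b1 (subset_insert _ _)
    have h3 : (0 : Fin (n + 1)) ∈ B ∩ M₂.E := by rw [this]; exact mem_insert _ _
    exact h0B h3.1

/-! ### Coding subsets of `Fin 8` by numbers below `256` -/

/-- The subset of `Fin 8` coded by the binary digits of `m`. -/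
def S (m : ℕ) : Set (Fin 8) := {i | m.testBit i = true}

lemma mem_S {m : ℕ} {i : Fin 8} : i ∈ S m ↔ m.testBit i = true := Iff.rfl

lemma S_inj {m m' : ℕ} (hm : m < 256) (hm' : m' < 256) (h : S m = S m') : m = m' := by
  apply Nat.eq_of_testBit_eq
  intro i
  by_cases hi : i < 8
  · have h1 : (⟨i, hi⟩ : Fin 8) ∈ S m ↔ (⟨i, hi⟩ : Fin 8) ∈ S m' := by rw [h]
    simp only [mem_S] at h1
    rcases hb : m.testBit i with _ | _ <;> rcases hb' : m'.testBit i with _ | _ <;> simp_all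
  · have hle : (256 : ℕ) ≤ 2 ^ i := by
      calc (256 : ℕ) = 2 ^ 8 := by norm_num
        _ ≤ 2 ^ i := Nat.pow_le_pow_right (by norm_num) (by omega)
    rw [Nat.testBit_lt_two_pow (lt_of_lt_of_le hm hle),
      Nat.testBit_lt_two_pow (lt_of_lt_of_le hm' hle)]

/-- Code of the result of exchanging `i` for `l`. -/
def ex (m i l : ℕ) : ℕ := (m ^^^ 2 ^ i) ||| 2 ^ l

lemma S_ex {m : ℕ} {i l : Fin 8} (hi : i ∈ S m) (hl : l ∉ S m) :
    S (ex m i l) = insert l (S m \ {i}) := by
  ext x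
  simp only [mem_S, ex, Nat.testBit_or, Nat.testBit_xor, Nat.testBit_two_pow, mem_insert_iff,
    mem_sdiff, mem_singleton_iff] at hi hl ⊢
  by_cases hx : x = l
  · subst hx; simp
  · have hx' : ¬ ((l : ℕ) = (x : ℕ)) := fun h => hx (Fin.ext h.symm)
    by_cases hxi : x = i
    · subst hxi; simp [hi, hx, hx']
    · have hxi' : ¬ ((i : ℕ) = (x : ℕ)) := fun h => hxi (Fin.ext h.symm)
      simp [hx, hx', hxi, hxi']

/-- A boolean check of the exchange property for a list of codes. -/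
def exchOK (L : List ℕ) : Bool :=
  L.all fun m => L.all fun m' => (List.range 8).all fun i =>
    !(m.testBit i && !m'.testBit i) ||
      (List.range 8).any fun l => m'.testBit l && !m.testBit l && L.contains (ex m i l)

/-- The matroid whose bases are coded by the members of a list. -/
def ofList (L : List ℕ) (h0 : L ≠ []) (hL : exchOK L = true) : Matroid (Fin 8) :=
  Matroid.ofIsBaseOfFinite (E := univ) finite_univ
    (fun B => ∃ m ∈ L, S m = B)
    (by
      obtain ⟨m, hm⟩ := List.exists_mem_of_ne_nil L h0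
      exact ⟨S m, m, hm, rfl⟩)
    (by
      rintro _ _ ⟨m, hm, rfl⟩ ⟨m', hm', rfl⟩ i ⟨hi, hi'⟩
      have h1 := List.all_eq_true.1 (List.all_eq_true.1 (List.all_eq_true.1 hL m hm) m' hm') i
        (List.mem_range.2 i.isLt)
      rw [mem_S] at hi hi'
      rw [Bool.or_eq_true] at h1
      rcases h1 with h1 | h1
      · simp [hi, hi'] at h1
      · obtain ⟨l, hl, h2⟩ := List.any_eq_true.1 h1
        rw [Bool.and_eq_true, Bool.and_eq_true] at h2
        obtain ⟨⟨h3, h4⟩, h5⟩ := h2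
        have hl8 := List.mem_range.1 hl
        have hlm : (⟨l, hl8⟩ : Fin 8) ∉ S m := by
          rw [mem_S]
          simpa using h4
        refine ⟨⟨l, hl8⟩, ⟨h3, hlm⟩, ex m i l, ?_, ?_⟩
        · simpa using h5
        · exact S_ex (l := ⟨l, hl8⟩) hi hlm)
    (fun B _ => subset_univ B)

lemma ofList_isBase (L : List ℕ) (h0 : L ≠ []) (hL : exchOK L = true) (B : Set (Fin 8)) :
    (ofList L h0 hL).IsBase B ↔ ∃ m ∈ L, S m = B := Iff.rfl

/-! ### The two matroids -/

/-- Codes of the bases of `M`: the three-element sets different from the six lines. -/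
def bM : List ℕ :=
  [7, 11, 13, 14, 19, 21, 22, 25, 26, 28, 35, 37, 38, 41, 42, 44, 50, 52, 56, 67, 69, 70, 73,
    74, 76, 81, 82, 88, 97, 98, 100, 112, 131, 133, 134, 137, 138, 140, 145, 146, 148, 161, 162,
    168, 176, 193, 196, 200, 208, 224]

/-- Codes of the bases of `M'`: the three-element sets meeting each of `03, 1, 2, 4567` at most
once. -/
def bM' : List ℕ :=
  [7, 14, 19, 21, 22, 26, 28, 35, 37, 38, 42, 44, 67, 69, 70, 74, 76, 131, 133, 134, 138, 140]

/-- The matroid `M`. -/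
def MM : Matroid (Fin 8) := ofList bM (by decide) (by decide +kernel)

/-- The matroid `M'`. -/
def MM' : Matroid (Fin 8) := ofList bM' (by decide) (by decide +kernel)

lemma MM_isBase (B : Set (Fin 8)) : MM.IsBase B ↔ ∃ m ∈ bM, S m = B := Iff.rfl

lemma MM'_isBase (B : Set (Fin 8)) : MM'.IsBase B ↔ ∃ m ∈ bM', S m = B := Iff.rfl

lemma bM_lt : ∀ m ∈ bM, m < 256 := by decide

lemma bM'_lt : ∀ m ∈ bM', m < 256 := by decide

lemma bM'_sub : ∀ m ∈ bM', m ∈ bM := by decide

lemma not_MM {m : ℕ} (hm : m < 256) (h : m ∉ bM) : ¬ MM.IsBase (S m) := by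
  rintro ⟨m', hm', he⟩
  exact h (S_inj (bM_lt _ hm') hm he ▸ hm')

lemma not_MM' {m : ℕ} (hm : m < 256) (h : m ∉ bM') : ¬ MM'.IsBase (S m) := by
  rintro ⟨m', hm', he⟩
  exact h (S_inj (bM'_lt _ hm') hm he ▸ hm')

lemma MM'_sub_MM {B : Set (Fin 8)} (hB : MM'.IsBase B) : MM.IsBase B := by
  obtain ⟨m, hm, rfl⟩ := hB
  exact ⟨m, bM'_sub m hm, rfl⟩

/-- The indicator vector of the set coded by `m`. -/
lemma vec_S (m : ℕ) (i : Fin 8) : vec (S m) i = if m.testBit i = true then 1 else 0 := by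
  simp only [vec, indicator, mem_S]

lemma sum_vec (l : Fin 8 → ℤ) (m : ℕ) :
    ∑ i, (l i : ℝ) * vec (S m) i =
      ((∑ i : Fin 8, (if m.testBit i = true then l i else 0) : ℤ) : ℝ) := by
  push_cast
  refine Finset.sum_congr rfl fun i _ => ?_
  rw [vec_S]
  split_ifs <;> simp

/-- If `z` violates an inequality satisfied by all bases of `M` outside the list `L`, then one of
the members of `L` is a base of `N`. -/
lemma exists_base {N : Matroid (Fin 8)} (hN : ∀ B, N.IsBase B → MM.IsBase B)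
    {z : Fin 8 → ℝ} (hz : z ∈ polytope N) (l : Fin 8 → ℤ) (c : ℤ) (L : List ℕ)
    (h : ∀ m ∈ bM, m ∈ L ∨ ∑ i : Fin 8, (if m.testBit i = true then l i else 0) ≤ c)
    (hz' : (c : ℝ) < ∑ i, (l i : ℝ) * z i) : ∃ m ∈ L, N.IsBase (S m) := by
  by_contra hcon
  push Not at hcon
  refine absurd (func hz (fun i => (l i : ℝ)) c ?_) (not_le.2 hz')
  intro B hB
  obtain ⟨m, hm, rfl⟩ := hN B hB
  rcases h m hm with h1 | h1
  · exact absurd hB (hcon m h1)
  · rw [sum_vec]
    exact_mod_cast h1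

/-- Boolean check for `exch`. -/
def exchCheck (m m' i : ℕ) (L : List ℕ) : Bool :=
  decide (i < 8) && decide (m < 256) && m.testBit i && !m'.testBit i &&
    (List.range 8).all fun l => !(m'.testBit l && !m.testBit l) ||
      !(bM.contains (ex m i l)) || L.contains (ex m i l)

/-- Basis exchange in terms of codes: `L` lists the possible results. -/
lemma exch {N : Matroid (Fin 8)} (hN : ∀ B, N.IsBase B → MM.IsBase B) (m m' i : ℕ) (L : List ℕ)
    (hm : N.IsBase (S m)) (hm' : N.IsBase (S m')) (hc : exchCheck m m' i L = true) :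
    ∃ k ∈ L, N.IsBase (S k) := by
  simp only [exchCheck, Bool.and_eq_true, decide_eq_true_eq] at hc
  obtain ⟨⟨⟨⟨hi, hm256⟩, h1⟩, h2⟩, h3⟩ := hc
  have h2' : m'.testBit i = false := by simpa using h2
  have hmem : (⟨i, hi⟩ : Fin 8) ∈ S m \ S m' := by
    refine ⟨h1, ?_⟩
    rw [mem_S]
    simp [h2']
  obtain ⟨l, ⟨hl, hl'⟩, hbase⟩ := hm.exchange hm' hmem
  rw [← S_ex (i := ⟨i, hi⟩) h1 hl'] at hbase
  have h4 := List.all_eq_true.1 h3 l (List.mem_range.2 l.isLt)
  rw [mem_S] at hl hl'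
  have hlf : m.testBit l = false := by simpa using hl'
  rw [hl, hlf] at h4
  obtain ⟨k, hk, hke⟩ := hN _ hbase
  have hlt : ex m i l < 256 := by
    have h5 : ∀ m < 256, ∀ i < 8, ∀ l < 8, ex m i l < 256 := by
      intro m hm i hi l hl
      apply Nat.or_lt_two_pow (n := 8)
      · apply Nat.xor_lt_two_pow (n := 8) hm
        exact Nat.pow_lt_pow_right (by norm_num) hi
      · exact Nat.pow_lt_pow_right (by norm_num) hl
    exact h5 m hm256 i hi l l.isLt
  have hkk : k = ex m i l := S_inj (bM_lt k hk) hlt hke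
  rw [hkk] at hk
  have hcont : bM.contains (ex m i l) = true := by simpa using hk
  rw [hcont] at h4
  refine ⟨ex m i l, by simpa using h4, hbase⟩

/-! ### Finding opposite vertices of an octahedral face in a cell -/

lemma ncard_of_mem : ∀ m ∈ bM, (Finset.univ.filter (fun i : Fin 8 => m.testBit i = true)).card = 3 := by
  decide +kernel

lemma ncard_S {m : ℕ} (hm : m ∈ bM) : (S m).ncard = 3 := by
  classical
  have h : S m = ((Finset.univ.filter (fun i : Fin 8 => m.testBit i = true) :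
      Finset (Fin 8)) : Set (Fin 8)) := by
    ext i; simp [mem_S]
  rw [h, Set.ncard_coe_finset]
  exact ncard_of_mem m hm

lemma isBase_of_indep {N : Matroid (Fin 8)} (hN : ∀ B, N.IsBase B → MM.IsBase B)
    {I : Set (Fin 8)} (hI : N.Indep I) (hc : I.ncard = 3) : N.IsBase I := by
  obtain ⟨B, hB, hIB⟩ := hI.exists_isBase_superset
  obtain ⟨m, hm, rfl⟩ := hN _ hB
  have : I = S m := Set.eq_of_subset_of_ncard_le hIB (by rw [ncard_S hm, hc]) (toFinite _)
  rwa [this]

/-- Code of a three-element set. -/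
def tri (x y z : Fin 8) : ℕ := 2 ^ (x : ℕ) ||| 2 ^ (y : ℕ) ||| 2 ^ (z : ℕ)

lemma S_tri (x y z : Fin 8) : S (tri x y z) = {x, y, z} := by
  ext i
  simp only [mem_S, tri, Nat.testBit_or, Nat.testBit_two_pow, Bool.or_eq_true,
    decide_eq_true_eq, mem_insert_iff, mem_singleton_iff, Fin.ext_iff]
  constructor
  · rintro ((h | h) | h)
    · exact Or.inl h.symm
    · exact Or.inr (Or.inl h.symm)
    · exact Or.inr (Or.inr h.symm)
  · rintro (h | h | h)
    · exact Or.inl (Or.inl h.symm)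
    · exact Or.inl (Or.inr h.symm)
    · exact Or.inr h.symm

/-- If `p, x, x'` are dependent in `M`, then in a base `p, x', u` of `N` we may replace `x'`
by `x`, provided `p, x` are independent in `N`. -/
lemma par {N : Matroid (Fin 8)} (hN : ∀ B, N.IsBase B → MM.IsBase B) (p x x' u : Fin 8)
    (hI : N.Indep {p, x}) (hB : N.IsBase (S (tri p x' u)))
    (hc : (decide (p ≠ x) && !bM.contains (tri p x x')) = true) :
    N.IsBase (S (tri p x u)) := by
  rw [Bool.and_eq_true, decide_eq_true_eq] at hc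
  obtain ⟨hpx, hc⟩ := hc
  have hnot : ¬ MM.IsBase {p, x, x'} := by
    rw [← S_tri]
    apply not_MM
    · rw [tri]
      apply Nat.or_lt_two_pow (n := 8)
      · apply Nat.or_lt_two_pow (n := 8)
        · exact Nat.pow_lt_pow_right (by norm_num) p.isLt
        · exact Nat.pow_lt_pow_right (by norm_num) x.isLt
      · exact Nat.pow_lt_pow_right (by norm_num) x'.isLt
    · simpa using hc
  rw [S_tri] at hB ⊢
  have hnb : ¬ N.IsBase {p, x} := by
    intro h
    obtain ⟨m, hm, hm'⟩ := hN _ h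
    have h1 := ncard_S hm
    rw [hm', ncard_pair hpx] at h1
    omega
  obtain ⟨e, ⟨he, he'⟩, hind⟩ := hI.exists_insert_of_not_isBase hnb hB
  have hcard : (insert e {p, x} : Set (Fin 8)).ncard = 3 := by
    rw [ncard_insert_of_notMem he', ncard_pair hpx]
  have hbase := isBase_of_indep hN hind hcard
  simp only [mem_insert_iff, mem_singleton_iff, not_or] at he he'
  rcases he with rfl | rfl | rfl
  · exact absurd rfl he'.1
  · exfalso
    apply hnot
    have : ({p, x, e} : Set (Fin 8)) = insert e {p, x} := by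
      ext y; simp only [mem_insert_iff, mem_singleton_iff]; tauto
    rw [this]
    exact hN _ hbase
  · have : ({p, x, e} : Set (Fin 8)) = insert e {p, x} := by
      ext y; simp only [mem_insert_iff, mem_singleton_iff]; tauto
    rw [this]
    exact hbase

lemma indep_pair {N : Matroid (Fin 8)} {m : ℕ} (p x : Fin 8) (hB : N.IsBase (S m))
    (hp : m.testBit p = true) (hx : m.testBit x = true) : N.Indep {p, x} := by
  refine hB.indep.subset ?_
  rintro y (rfl | rfl)
  · exact hp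
  · exact hx

lemma comb (a a' b b' c c' : Prop) (s0 : a ∨ b ∨ c) (s1 : a ∨ b' ∨ c') (s2 : a' ∨ b ∨ c')
    (s3 : a' ∨ b' ∨ c) (t0 : a ∨ b ∨ c') (t1 : a ∨ b' ∨ c) (t2 : a' ∨ b ∨ c)
    (t3 : a' ∨ b' ∨ c') : (a ∧ a') ∨ (b ∧ b') ∨ (c ∧ c') := by
  by_cases ha : a <;> by_cases ha' : a' <;> by_cases hb : b <;> by_cases hb' : b' <;>
    by_cases hc : c <;> by_cases hc' : c' <;> simp_all

attribute [local irreducible] S

/-- The point with coordinate `1` at `p`, `1/2` at `a` and `1/4` elsewhere. -/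
noncomputable def zpt (p a : Fin 8) : Fin 8 → ℝ :=
  fun i => if i = p then 1 else if i = a then 1 / 2 else 1 / 4

lemma quad4_indep {N : Matroid (Fin 8)} (hN : ∀ B, N.IsBase B → MM.IsBase B)
    (hz : zpt 4 1 ∈ polytope N) (x : Fin 8) (hx : x ≠ 4) : N.Indep {4, x} := by
  have h : ∀ x : Fin 8, x ≠ 4 → ∀ m ∈ bM, m ∈ bM.filter (fun m => m.testBit 4 && m.testBit x) ∨
      ∑ i : Fin 8, (if m.testBit i = true then (if i = 4 then 1 else if i = x then 1 else 0 : ℤ) else 0) ≤ 1 := by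
    decide +kernel
  obtain ⟨m, hm, hb⟩ := exists_base hN hz (fun i => if i = 4 then 1 else if i = x then 1 else 0) 1
    (bM.filter (fun m => m.testBit 4 && m.testBit x)) (h x hx) (by
      fin_cases x <;> first
        | exact absurd rfl hx
        | (simp [Fin.sum_univ_eight, zpt] <;> norm_num))
  rw [List.mem_filter, Bool.and_eq_true] at hm
  exact indep_pair 4 x hb hm.2.1 hm.2.2

lemma quad4_canon {N : Matroid (Fin 8)} (hN : ∀ B, N.IsBase B → MM.IsBase B)
    (hz : zpt 4 1 ∈ polytope N) :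
    (N.IsBase (S 50) → N.IsBase (S 19)) ∧
    (N.IsBase (S 52) → N.IsBase (S 21)) ∧
    (N.IsBase (S 56) → N.IsBase (S 25)) ∧
    (N.IsBase (S 81) → N.IsBase (S 21)) ∧
    (N.IsBase (S 82) → N.IsBase (S 22)) ∧
    (N.IsBase (S 88) → N.IsBase (S 28)) ∧
    (N.IsBase (S 112) → N.IsBase (S 21)) ∧
    (N.IsBase (S 145) → N.IsBase (S 25)) ∧
    (N.IsBase (S 146) → N.IsBase (S 26)) ∧
    (N.IsBase (S 148) → N.IsBase (S 28)) ∧
    (N.IsBase (S 176) → N.IsBase (S 25)) ∧
    (N.IsBase (S 208) → N.IsBase (S 28)) := by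
  have I := fun x hx => quad4_indep hN hz x hx
  exact ⟨fun h => (par hN 4 0 5 1 (I 0 (by decide)) h (by decide)),
    fun h => (par hN 4 0 5 2 (I 0 (by decide)) h (by decide)),
    fun h => (par hN 4 0 5 3 (I 0 (by decide)) h (by decide)),
    fun h => (par hN 4 2 6 0 (I 2 (by decide)) h (by decide)),
    fun h => (par hN 4 2 6 1 (I 2 (by decide)) h (by decide)),
    fun h => (par hN 4 2 6 3 (I 2 (by decide)) h (by decide)),
    fun h => (par hN 4 2 6 0 (I 2 (by decide)) (par hN 4 0 5 6 (I 0 (by decide)) h (by decide)) (by decide)),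
    fun h => (par hN 4 3 7 0 (I 3 (by decide)) h (by decide)),
    fun h => (par hN 4 3 7 1 (I 3 (by decide)) h (by decide)),
    fun h => (par hN 4 3 7 2 (I 3 (by decide)) h (by decide)),
    fun h => (par hN 4 3 7 0 (I 3 (by decide)) (par hN 4 0 5 7 (I 0 (by decide)) h (by decide)) (by decide)),
    fun h => (par hN 4 3 7 2 (I 3 (by decide)) (par hN 4 2 6 7 (I 2 (by decide)) h (by decide)) (by decide))⟩

lemma quad4 {N : Matroid (Fin 8)} (hN : ∀ B, N.IsBase B → MM.IsBase B)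
    (hz : zpt 4 1 ∈ polytope N) :
    (N.IsBase (S 19) ∧ N.IsBase (S 28)) ∨
    (N.IsBase (S 22) ∧ N.IsBase (S 25)) ∨
    (N.IsBase (S 26) ∧ N.IsBase (S 21)) := by
  have C := quad4_canon hN hz
  have f0 : N.IsBase (S 19) ∨ N.IsBase (S 22) ∨ N.IsBase (S 26) := by
    obtain ⟨m, hm, hb⟩ := exists_base hN hz (fun i => if i = 4 ∨ i = 1 then 1 else 0) 1
      [19, 22, 26, 50, 82, 146] (by decide +kernel) (by
      simp [Fin.sum_univ_eight, zpt] <;> norm_num)
    simp only [List.mem_cons, List.not_mem_nil, or_false] at hm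
    rcases hm with rfl | rfl | rfl | rfl | rfl | rfl
    · exact Or.inl (hb)
    · exact Or.inr (Or.inl (hb))
    · exact Or.inr (Or.inr (hb))
    · exact Or.inl (C.1 hb)
    · exact Or.inr (Or.inl (C.2.2.2.2.1 hb))
    · exact Or.inr (Or.inr (C.2.2.2.2.2.2.2.2.1 hb))
  have f1 : N.IsBase (S 19) ∨ N.IsBase (S 25) ∨ N.IsBase (S 21) := by
    obtain ⟨m, hm, hb⟩ := exists_base hN hz (fun i => if i = 4 ∨ i = 0 then 1 else 0) 1
      [19, 21, 25, 81, 145] (by decide +kernel) (by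
      simp [Fin.sum_univ_eight, zpt] <;> norm_num)
    simp only [List.mem_cons, List.not_mem_nil, or_false] at hm
    rcases hm with rfl | rfl | rfl | rfl | rfl
    · exact Or.inl (hb)
    · exact Or.inr (Or.inr (hb))
    · exact Or.inr (Or.inl (hb))
    · exact Or.inr (Or.inr (C.2.2.2.1 hb))
    · exact Or.inr (Or.inl (C.2.2.2.2.2.2.2.1 hb))
  have f2 : N.IsBase (S 28) ∨ N.IsBase (S 22) ∨ N.IsBase (S 21) := by
    obtain ⟨m, hm, hb⟩ := exists_base hN hz (fun i => if i = 4 ∨ i = 2 then 1 else 0) 1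
      [21, 22, 28, 52, 148] (by decide +kernel) (by
      simp [Fin.sum_univ_eight, zpt] <;> norm_num)
    simp only [List.mem_cons, List.not_mem_nil, or_false] at hm
    rcases hm with rfl | rfl | rfl | rfl | rfl
    · exact Or.inr (Or.inr (hb))
    · exact Or.inr (Or.inl (hb))
    · exact Or.inl (hb)
    · exact Or.inr (Or.inr (C.2.1 hb))
    · exact Or.inl (C.2.2.2.2.2.2.2.2.2.1 hb)
  have f3 : N.IsBase (S 28) ∨ N.IsBase (S 25) ∨ N.IsBase (S 26) := by
    obtain ⟨m, hm, hb⟩ := exists_base hN hz (fun i => if i = 4 ∨ i = 3 then 1 else 0) 1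
      [25, 26, 28, 56, 88] (by decide +kernel) (by
      simp [Fin.sum_univ_eight, zpt] <;> norm_num)
    simp only [List.mem_cons, List.not_mem_nil, or_false] at hm
    rcases hm with rfl | rfl | rfl | rfl | rfl
    · exact Or.inr (Or.inl (hb))
    · exact Or.inr (Or.inr (hb))
    · exact Or.inl (hb)
    · exact Or.inr (Or.inl (C.2.2.1 hb))
    · exact Or.inl (C.2.2.2.2.2.1 hb)
  have f4 : N.IsBase (S 19) ∨ N.IsBase (S 22) ∨ N.IsBase (S 21) := by
    obtain ⟨m, hm, hb⟩ := exists_base hN hz (fun i => if i = 4 then 2 else if i = 1 ∨ i = 0 ∨ i = 5 ∨ i = 2 ∨ i = 6 then 1 else 0) 3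
      [19, 21, 22, 50, 52, 81, 82, 112] (by decide +kernel) (by
      simp [Fin.sum_univ_eight, zpt] <;> norm_num)
    simp only [List.mem_cons, List.not_mem_nil, or_false] at hm
    rcases hm with rfl | rfl | rfl | rfl | rfl | rfl | rfl | rfl
    · exact Or.inl (hb)
    · exact Or.inr (Or.inr (hb))
    · exact Or.inr (Or.inl (hb))
    · exact Or.inl (C.1 hb)
    · exact Or.inr (Or.inr (C.2.1 hb))
    · exact Or.inr (Or.inr (C.2.2.2.1 hb))
    · exact Or.inr (Or.inl (C.2.2.2.2.1 hb))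
    · exact Or.inr (Or.inr (C.2.2.2.2.2.2.1 hb))
  have f5 : N.IsBase (S 19) ∨ N.IsBase (S 25) ∨ N.IsBase (S 26) := by
    obtain ⟨m, hm, hb⟩ := exists_base hN hz (fun i => if i = 4 then 2 else if i = 1 ∨ i = 0 ∨ i = 5 ∨ i = 3 ∨ i = 7 then 1 else 0) 3
      [19, 25, 26, 50, 56, 145, 146, 176] (by decide +kernel) (by
      simp [Fin.sum_univ_eight, zpt] <;> norm_num)
    simp only [List.mem_cons, List.not_mem_nil, or_false] at hm
    rcases hm with rfl | rfl | rfl | rfl | rfl | rfl | rfl | rfl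
    · exact Or.inl (hb)
    · exact Or.inr (Or.inl (hb))
    · exact Or.inr (Or.inr (hb))
    · exact Or.inl (C.1 hb)
    · exact Or.inr (Or.inl (C.2.2.1 hb))
    · exact Or.inr (Or.inl (C.2.2.2.2.2.2.2.1 hb))
    · exact Or.inr (Or.inr (C.2.2.2.2.2.2.2.2.1 hb))
    · exact Or.inr (Or.inl (C.2.2.2.2.2.2.2.2.2.2.1 hb))
  have f6 : N.IsBase (S 28) ∨ N.IsBase (S 22) ∨ N.IsBase (S 26) := by
    obtain ⟨m, hm, hb⟩ := exists_base hN hz (fun i => if i = 4 then 2 else if i = 1 ∨ i = 2 ∨ i = 6 ∨ i = 3 ∨ i = 7 then 1 else 0) 3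
      [22, 26, 28, 82, 88, 146, 148, 208] (by decide +kernel) (by
      simp [Fin.sum_univ_eight, zpt] <;> norm_num)
    simp only [List.mem_cons, List.not_mem_nil, or_false] at hm
    rcases hm with rfl | rfl | rfl | rfl | rfl | rfl | rfl | rfl
    · exact Or.inr (Or.inl (hb))
    · exact Or.inr (Or.inr (hb))
    · exact Or.inl (hb)
    · exact Or.inr (Or.inl (C.2.2.2.2.1 hb))
    · exact Or.inl (C.2.2.2.2.2.1 hb)
    · exact Or.inr (Or.inr (C.2.2.2.2.2.2.2.2.1 hb))
    · exact Or.inl (C.2.2.2.2.2.2.2.2.2.1 hb)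
    · exact Or.inl (C.2.2.2.2.2.2.2.2.2.2.2 hb)
  have f7 : N.IsBase (S 28) ∨ N.IsBase (S 25) ∨ N.IsBase (S 21) := by
    obtain ⟨m, hm, hb⟩ := exists_base hN hz (fun i => if i = 4 then 2 else if i = 0 ∨ i = 5 ∨ i = 2 ∨ i = 6 ∨ i = 3 ∨ i = 7 then 1 else 0) 3
      [21, 25, 28, 52, 56, 81, 88, 112, 145, 148, 176, 208] (by decide +kernel) (by
      simp [Fin.sum_univ_eight, zpt] <;> norm_num)
    simp only [List.mem_cons, List.not_mem_nil, or_false] at hm
    rcases hm with rfl | rfl | rfl | rfl | rfl | rfl | rfl | rfl | rfl | rfl | rfl | rfl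
    · exact Or.inr (Or.inr (hb))
    · exact Or.inr (Or.inl (hb))
    · exact Or.inl (hb)
    · exact Or.inr (Or.inr (C.2.1 hb))
    · exact Or.inr (Or.inl (C.2.2.1 hb))
    · exact Or.inr (Or.inr (C.2.2.2.1 hb))
    · exact Or.inl (C.2.2.2.2.2.1 hb)
    · exact Or.inr (Or.inr (C.2.2.2.2.2.2.1 hb))
    · exact Or.inr (Or.inl (C.2.2.2.2.2.2.2.1 hb))
    · exact Or.inl (C.2.2.2.2.2.2.2.2.2.1 hb)
    · exact Or.inr (Or.inl (C.2.2.2.2.2.2.2.2.2.2.1 hb))
    · exact Or.inl (C.2.2.2.2.2.2.2.2.2.2.2 hb)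
  exact comb _ _ _ _ _ _ f0 f1 f2 f3 f4 f5 f6 f7

lemma quad5_indep {N : Matroid (Fin 8)} (hN : ∀ B, N.IsBase B → MM.IsBase B)
    (hz : zpt 5 1 ∈ polytope N) (x : Fin 8) (hx : x ≠ 5) : N.Indep {5, x} := by
  have h : ∀ x : Fin 8, x ≠ 5 → ∀ m ∈ bM, m ∈ bM.filter (fun m => m.testBit 5 && m.testBit x) ∨
      ∑ i : Fin 8, (if m.testBit i = true then (if i = 5 then 1 else if i = x then 1 else 0 : ℤ) else 0) ≤ 1 := by
    decide +kernel
  obtain ⟨m, hm, hb⟩ := exists_base hN hz (fun i => if i = 5 then 1 else if i = x then 1 else 0) 1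
    (bM.filter (fun m => m.testBit 5 && m.testBit x)) (h x hx) (by
      fin_cases x <;> first
        | exact absurd rfl hx
        | (simp [Fin.sum_univ_eight, zpt] <;> norm_num))
  rw [List.mem_filter, Bool.and_eq_true] at hm
  exact indep_pair 5 x hb hm.2.1 hm.2.2

lemma quad5_canon {N : Matroid (Fin 8)} (hN : ∀ B, N.IsBase B → MM.IsBase B)
    (hz : zpt 5 1 ∈ polytope N) :
    (N.IsBase (S 50) → N.IsBase (S 35)) ∧
    (N.IsBase (S 52) → N.IsBase (S 37)) ∧
    (N.IsBase (S 56) → N.IsBase (S 41)) ∧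
    (N.IsBase (S 97) → N.IsBase (S 41)) ∧
    (N.IsBase (S 98) → N.IsBase (S 42)) ∧
    (N.IsBase (S 100) → N.IsBase (S 44)) ∧
    (N.IsBase (S 112) → N.IsBase (S 41)) ∧
    (N.IsBase (S 161) → N.IsBase (S 37)) ∧
    (N.IsBase (S 162) → N.IsBase (S 38)) ∧
    (N.IsBase (S 168) → N.IsBase (S 44)) ∧
    (N.IsBase (S 176) → N.IsBase (S 37)) ∧
    (N.IsBase (S 224) → N.IsBase (S 44)) := by
  have I := fun x hx => quad5_indep hN hz x hx
  exact ⟨fun h => (par hN 5 0 4 1 (I 0 (by decide)) h (by decide)),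
    fun h => (par hN 5 0 4 2 (I 0 (by decide)) h (by decide)),
    fun h => (par hN 5 0 4 3 (I 0 (by decide)) h (by decide)),
    fun h => (par hN 5 3 6 0 (I 3 (by decide)) h (by decide)),
    fun h => (par hN 5 3 6 1 (I 3 (by decide)) h (by decide)),
    fun h => (par hN 5 3 6 2 (I 3 (by decide)) h (by decide)),
    fun h => (par hN 5 3 6 0 (I 3 (by decide)) (par hN 5 0 4 6 (I 0 (by decide)) h (by decide)) (by decide)),
    fun h => (par hN 5 2 7 0 (I 2 (by decide)) h (by decide)),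
    fun h => (par hN 5 2 7 1 (I 2 (by decide)) h (by decide)),
    fun h => (par hN 5 2 7 3 (I 2 (by decide)) h (by decide)),
    fun h => (par hN 5 2 7 0 (I 2 (by decide)) (par hN 5 0 4 7 (I 0 (by decide)) h (by decide)) (by decide)),
    fun h => (par hN 5 2 7 3 (I 2 (by decide)) (par hN 5 3 6 7 (I 3 (by decide)) h (by decide)) (by decide))⟩

lemma quad5 {N : Matroid (Fin 8)} (hN : ∀ B, N.IsBase B → MM.IsBase B)
    (hz : zpt 5 1 ∈ polytope N) :
    (N.IsBase (S 35) ∧ N.IsBase (S 44)) ∨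
    (N.IsBase (S 38) ∧ N.IsBase (S 41)) ∨
    (N.IsBase (S 42) ∧ N.IsBase (S 37)) := by
  have C := quad5_canon hN hz
  have f0 : N.IsBase (S 35) ∨ N.IsBase (S 38) ∨ N.IsBase (S 42) := by
    obtain ⟨m, hm, hb⟩ := exists_base hN hz (fun i => if i = 5 ∨ i = 1 then 1 else 0) 1
      [35, 38, 42, 50, 98, 162] (by decide +kernel) (by
      simp [Fin.sum_univ_eight, zpt] <;> norm_num)
    simp only [List.mem_cons, List.not_mem_nil, or_false] at hm
    rcases hm with rfl | rfl | rfl | rfl | rfl | rfl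
    · exact Or.inl (hb)
    · exact Or.inr (Or.inl (hb))
    · exact Or.inr (Or.inr (hb))
    · exact Or.inl (C.1 hb)
    · exact Or.inr (Or.inr (C.2.2.2.2.1 hb))
    · exact Or.inr (Or.inl (C.2.2.2.2.2.2.2.2.1 hb))
  have f1 : N.IsBase (S 35) ∨ N.IsBase (S 41) ∨ N.IsBase (S 37) := by
    obtain ⟨m, hm, hb⟩ := exists_base hN hz (fun i => if i = 5 ∨ i = 0 then 1 else 0) 1
      [35, 37, 41, 97, 161] (by decide +kernel) (by
      simp [Fin.sum_univ_eight, zpt] <;> norm_num)
    simp only [List.mem_cons, List.not_mem_nil, or_false] at hm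
    rcases hm with rfl | rfl | rfl | rfl | rfl
    · exact Or.inl (hb)
    · exact Or.inr (Or.inr (hb))
    · exact Or.inr (Or.inl (hb))
    · exact Or.inr (Or.inl (C.2.2.2.1 hb))
    · exact Or.inr (Or.inr (C.2.2.2.2.2.2.2.1 hb))
  have f2 : N.IsBase (S 44) ∨ N.IsBase (S 38) ∨ N.IsBase (S 37) := by
    obtain ⟨m, hm, hb⟩ := exists_base hN hz (fun i => if i = 5 ∨ i = 2 then 1 else 0) 1
      [37, 38, 44, 52, 100] (by decide +kernel) (by
      simp [Fin.sum_univ_eight, zpt] <;> norm_num)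
    simp only [List.mem_cons, List.not_mem_nil, or_false] at hm
    rcases hm with rfl | rfl | rfl | rfl | rfl
    · exact Or.inr (Or.inr (hb))
    · exact Or.inr (Or.inl (hb))
    · exact Or.inl (hb)
    · exact Or.inr (Or.inr (C.2.1 hb))
    · exact Or.inl (C.2.2.2.2.2.1 hb)
  have f3 : N.IsBase (S 44) ∨ N.IsBase (S 41) ∨ N.IsBase (S 42) := by
    obtain ⟨m, hm, hb⟩ := exists_base hN hz (fun i => if i = 5 ∨ i = 3 then 1 else 0) 1
      [41, 42, 44, 56, 168] (by decide +kernel) (by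
      simp [Fin.sum_univ_eight, zpt] <;> norm_num)
    simp only [List.mem_cons, List.not_mem_nil, or_false] at hm
    rcases hm with rfl | rfl | rfl | rfl | rfl
    · exact Or.inr (Or.inl (hb))
    · exact Or.inr (Or.inr (hb))
    · exact Or.inl (hb)
    · exact Or.inr (Or.inl (C.2.2.1 hb))
    · exact Or.inl (C.2.2.2.2.2.2.2.2.2.1 hb)
  have f4 : N.IsBase (S 35) ∨ N.IsBase (S 38) ∨ N.IsBase (S 37) := by
    obtain ⟨m, hm, hb⟩ := exists_base hN hz (fun i => if i = 5 then 2 else if i = 1 ∨ i = 0 ∨ i = 4 ∨ i = 2 ∨ i = 7 then 1 else 0) 3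
      [35, 37, 38, 50, 52, 161, 162, 176] (by decide +kernel) (by
      simp [Fin.sum_univ_eight, zpt] <;> norm_num)
    simp only [List.mem_cons, List.not_mem_nil, or_false] at hm
    rcases hm with rfl | rfl | rfl | rfl | rfl | rfl | rfl | rfl
    · exact Or.inl (hb)
    · exact Or.inr (Or.inr (hb))
    · exact Or.inr (Or.inl (hb))
    · exact Or.inl (C.1 hb)
    · exact Or.inr (Or.inr (C.2.1 hb))
    · exact Or.inr (Or.inr (C.2.2.2.2.2.2.2.1 hb))
    · exact Or.inr (Or.inl (C.2.2.2.2.2.2.2.2.1 hb))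
    · exact Or.inr (Or.inr (C.2.2.2.2.2.2.2.2.2.2.1 hb))
  have f5 : N.IsBase (S 35) ∨ N.IsBase (S 41) ∨ N.IsBase (S 42) := by
    obtain ⟨m, hm, hb⟩ := exists_base hN hz (fun i => if i = 5 then 2 else if i = 1 ∨ i = 0 ∨ i = 4 ∨ i = 3 ∨ i = 6 then 1 else 0) 3
      [35, 41, 42, 50, 56, 97, 98, 112] (by decide +kernel) (by
      simp [Fin.sum_univ_eight, zpt] <;> norm_num)
    simp only [List.mem_cons, List.not_mem_nil, or_false] at hm
    rcases hm with rfl | rfl | rfl | rfl | rfl | rfl | rfl | rfl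
    · exact Or.inl (hb)
    · exact Or.inr (Or.inl (hb))
    · exact Or.inr (Or.inr (hb))
    · exact Or.inl (C.1 hb)
    · exact Or.inr (Or.inl (C.2.2.1 hb))
    · exact Or.inr (Or.inl (C.2.2.2.1 hb))
    · exact Or.inr (Or.inr (C.2.2.2.2.1 hb))
    · exact Or.inr (Or.inl (C.2.2.2.2.2.2.1 hb))
  have f6 : N.IsBase (S 44) ∨ N.IsBase (S 38) ∨ N.IsBase (S 42) := by
    obtain ⟨m, hm, hb⟩ := exists_base hN hz (fun i => if i = 5 then 2 else if i = 1 ∨ i = 2 ∨ i = 7 ∨ i = 3 ∨ i = 6 then 1 else 0) 3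
      [38, 42, 44, 98, 100, 162, 168, 224] (by decide +kernel) (by
      simp [Fin.sum_univ_eight, zpt] <;> norm_num)
    simp only [List.mem_cons, List.not_mem_nil, or_false] at hm
    rcases hm with rfl | rfl | rfl | rfl | rfl | rfl | rfl | rfl
    · exact Or.inr (Or.inl (hb))
    · exact Or.inr (Or.inr (hb))
    · exact Or.inl (hb)
    · exact Or.inr (Or.inr (C.2.2.2.2.1 hb))
    · exact Or.inl (C.2.2.2.2.2.1 hb)
    · exact Or.inr (Or.inl (C.2.2.2.2.2.2.2.2.1 hb))
    · exact Or.inl (C.2.2.2.2.2.2.2.2.2.1 hb)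
    · exact Or.inl (C.2.2.2.2.2.2.2.2.2.2.2 hb)
  have f7 : N.IsBase (S 44) ∨ N.IsBase (S 41) ∨ N.IsBase (S 37) := by
    obtain ⟨m, hm, hb⟩ := exists_base hN hz (fun i => if i = 5 then 2 else if i = 0 ∨ i = 4 ∨ i = 2 ∨ i = 7 ∨ i = 3 ∨ i = 6 then 1 else 0) 3
      [37, 41, 44, 52, 56, 97, 100, 112, 161, 168, 176, 224] (by decide +kernel) (by
      simp [Fin.sum_univ_eight, zpt] <;> norm_num)
    simp only [List.mem_cons, List.not_mem_nil, or_false] at hm
    rcases hm with rfl | rfl | rfl | rfl | rfl | rfl | rfl | rfl | rfl | rfl | rfl | rfl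
    · exact Or.inr (Or.inr (hb))
    · exact Or.inr (Or.inl (hb))
    · exact Or.inl (hb)
    · exact Or.inr (Or.inr (C.2.1 hb))
    · exact Or.inr (Or.inl (C.2.2.1 hb))
    · exact Or.inr (Or.inl (C.2.2.2.1 hb))
    · exact Or.inl (C.2.2.2.2.2.1 hb)
    · exact Or.inr (Or.inl (C.2.2.2.2.2.2.1 hb))
    · exact Or.inr (Or.inr (C.2.2.2.2.2.2.2.1 hb))
    · exact Or.inl (C.2.2.2.2.2.2.2.2.2.1 hb)
    · exact Or.inr (Or.inr (C.2.2.2.2.2.2.2.2.2.2.1 hb))
    · exact Or.inl (C.2.2.2.2.2.2.2.2.2.2.2 hb)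
  exact comb _ _ _ _ _ _ f0 f1 f2 f3 f4 f5 f6 f7

/-- The point used for the face spanned by `1, 4, 5, 6, 7`. -/
noncomputable def z3 : Fin 8 → ℝ := ![0, 1 / 2, 0, 0, 3 / 4, 3 / 4, 1 / 2, 1 / 2]

lemma penta_tr {N : Matroid (Fin 8)} (hN : ∀ B, N.IsBase B → MM.IsBase B)
    (hz : z3 ∈ polytope N) :
    (N.IsBase (S 208) → N.IsBase (S 224)) ∧ (N.IsBase (S 146) → N.IsBase (S 162)) ∧
    (N.IsBase (S 82) → N.IsBase (S 98)) ∧ (N.IsBase (S 224) → N.IsBase (S 208)) ∧
    (N.IsBase (S 162) → N.IsBase (S 146)) ∧ (N.IsBase (S 98) → N.IsBase (S 82)) := by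
  obtain ⟨m5, h5, b5⟩ := exists_base hN hz (![-1, 0, -1, -1, -1, 0, 0, 0]) (-1)
      [98, 162, 224] (by decide +kernel) (by
      simp [Fin.sum_univ_eight, z3] <;> norm_num)
  obtain ⟨m4, h4, b4⟩ := exists_base hN hz (![-1, 0, -1, -1, 0, -1, 0, 0]) (-1)
      [82, 146, 208] (by decide +kernel) (by
      simp [Fin.sum_univ_eight, z3] <;> norm_num)
  simp only [List.mem_cons, List.not_mem_nil, or_false] at h5 h4
  have key : ∀ m k i : ℕ, N.IsBase (S m) → ∀ m0, N.IsBase (S m0) → exchCheck m m0 i [k] = true →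
      N.IsBase (S k) := by
    intro m k i hm m0 hm0 hc
    obtain ⟨k', hk', hb⟩ := exch hN m m0 i [k] hm hm0 hc
    simp only [List.mem_cons, List.not_mem_nil, or_false] at hk'
    rwa [hk'] at hb
  refine ⟨fun h => ?_, fun h => ?_, fun h => ?_, fun h => ?_, fun h => ?_, fun h => ?_⟩
  · rcases h5 with rfl | rfl | rfl <;> exact key 208 224 4 h _ b5 (by decide)
  · rcases h5 with rfl | rfl | rfl <;> exact key 146 162 4 h _ b5 (by decide)
  · rcases h5 with rfl | rfl | rfl <;> exact key 82 98 4 h _ b5 (by decide)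
  · rcases h4 with rfl | rfl | rfl <;> exact key 224 208 5 h _ b4 (by decide)
  · rcases h4 with rfl | rfl | rfl <;> exact key 162 146 5 h _ b4 (by decide)
  · rcases h4 with rfl | rfl | rfl <;> exact key 98 82 5 h _ b4 (by decide)

lemma penta {N : Matroid (Fin 8)} (hN : ∀ B, N.IsBase B → MM.IsBase B)
    (hz : z3 ∈ polytope N) :
    (N.IsBase (S 50) ∧ N.IsBase (S 208)) ∨ (N.IsBase (S 112) ∧ N.IsBase (S 146)) ∨
    (N.IsBase (S 176) ∧ N.IsBase (S 82)) := by
  have C := penta_tr hN hz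
  have f0 : N.IsBase (S 50) ∨ N.IsBase (S 112) ∨ N.IsBase (S 176) := by
    obtain ⟨m, hm, hb⟩ := exists_base hN hz (![-1, 0, -1, -1, 1, 1, 0, 0]) (1)
      [50, 112, 176] (by decide +kernel) (by
      simp [Fin.sum_univ_eight, z3] <;> norm_num)
    simp only [List.mem_cons, List.not_mem_nil, or_false] at hm
    rcases hm with rfl | rfl | rfl
    · exact Or.inl (hb)
    · exact Or.inr (Or.inl (hb))
    · exact Or.inr (Or.inr (hb))
  have f1 : N.IsBase (S 50) ∨ N.IsBase (S 146) ∨ N.IsBase (S 82) := by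
    obtain ⟨m, hm, hb⟩ := exists_base hN hz (![-1, 1, -1, -1, 0, 0, 0, 0]) (0)
      [50, 82, 98, 146, 162] (by decide +kernel) (by
      simp [Fin.sum_univ_eight, z3] <;> norm_num)
    simp only [List.mem_cons, List.not_mem_nil, or_false] at hm
    rcases hm with rfl | rfl | rfl | rfl | rfl
    · exact Or.inl (hb)
    · exact Or.inr (Or.inr (hb))
    · exact Or.inr (Or.inr (C.2.2.2.2.2 hb))
    · exact Or.inr (Or.inl (hb))
    · exact Or.inr (Or.inl (C.2.2.2.2.1 hb))
  have f2 : N.IsBase (S 208) ∨ N.IsBase (S 112) ∨ N.IsBase (S 82) := by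
    obtain ⟨m, hm, hb⟩ := exists_base hN hz (![-1, 0, -1, -1, 0, 0, 1, 0]) (0)
      [112, 82, 98, 208, 224] (by decide +kernel) (by
      simp [Fin.sum_univ_eight, z3] <;> norm_num)
    simp only [List.mem_cons, List.not_mem_nil, or_false] at hm
    rcases hm with rfl | rfl | rfl | rfl | rfl
    · exact Or.inr (Or.inl (hb))
    · exact Or.inr (Or.inr (hb))
    · exact Or.inr (Or.inr (C.2.2.2.2.2 hb))
    · exact Or.inl (hb)
    · exact Or.inl (C.2.2.2.1 hb)
  have f3 : N.IsBase (S 208) ∨ N.IsBase (S 146) ∨ N.IsBase (S 176) := by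
    obtain ⟨m, hm, hb⟩ := exists_base hN hz (![-1, 0, -1, -1, 0, 0, 0, 1]) (0)
      [176, 146, 162, 208, 224] (by decide +kernel) (by
      simp [Fin.sum_univ_eight, z3] <;> norm_num)
    simp only [List.mem_cons, List.not_mem_nil, or_false] at hm
    rcases hm with rfl | rfl | rfl | rfl | rfl
    · exact Or.inr (Or.inr (hb))
    · exact Or.inr (Or.inl (hb))
    · exact Or.inr (Or.inl (C.2.2.2.2.1 hb))
    · exact Or.inl (hb)
    · exact Or.inl (C.2.2.2.1 hb)
  have f4 : N.IsBase (S 50) ∨ N.IsBase (S 112) ∨ N.IsBase (S 82) := by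
    obtain ⟨m, hm, hb⟩ := exists_base hN hz (![-1, 0, -1, -1, 0, 0, 0, -1]) (-1)
      [50, 112, 82, 98] (by decide +kernel) (by
      simp [Fin.sum_univ_eight, z3] <;> norm_num)
    simp only [List.mem_cons, List.not_mem_nil, or_false] at hm
    rcases hm with rfl | rfl | rfl | rfl
    · exact Or.inl (hb)
    · exact Or.inr (Or.inl (hb))
    · exact Or.inr (Or.inr (hb))
    · exact Or.inr (Or.inr (C.2.2.2.2.2 hb))
  have f5 : N.IsBase (S 50) ∨ N.IsBase (S 146) ∨ N.IsBase (S 176) := by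
    obtain ⟨m, hm, hb⟩ := exists_base hN hz (![-1, 0, -1, -1, 0, 0, -1, 0]) (-1)
      [50, 176, 146, 162] (by decide +kernel) (by
      simp [Fin.sum_univ_eight, z3] <;> norm_num)
    simp only [List.mem_cons, List.not_mem_nil, or_false] at hm
    rcases hm with rfl | rfl | rfl | rfl
    · exact Or.inl (hb)
    · exact Or.inr (Or.inr (hb))
    · exact Or.inr (Or.inl (hb))
    · exact Or.inr (Or.inl (C.2.2.2.2.1 hb))
  have f6 : N.IsBase (S 208) ∨ N.IsBase (S 112) ∨ N.IsBase (S 176) := by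
    obtain ⟨m, hm, hb⟩ := exists_base hN hz (![-1, -1, -1, -1, 0, 0, 0, 0]) (-1)
      [112, 176, 208, 224] (by decide +kernel) (by
      simp [Fin.sum_univ_eight, z3] <;> norm_num)
    simp only [List.mem_cons, List.not_mem_nil, or_false] at hm
    rcases hm with rfl | rfl | rfl | rfl
    · exact Or.inr (Or.inl (hb))
    · exact Or.inr (Or.inr (hb))
    · exact Or.inl (hb)
    · exact Or.inl (C.2.2.2.1 hb)
  have f7 : N.IsBase (S 208) ∨ N.IsBase (S 146) ∨ N.IsBase (S 82) := by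
    obtain ⟨m, hm, hb⟩ := exists_base hN hz (![-2, 0, -2, -2, -1, -1, 0, 0]) (-2)
      [82, 146, 208, 98, 162, 224] (by decide +kernel) (by
      simp [Fin.sum_univ_eight, z3] <;> norm_num)
    simp only [List.mem_cons, List.not_mem_nil, or_false] at hm
    rcases hm with rfl | rfl | rfl | rfl | rfl | rfl
    · exact Or.inr (Or.inr (hb))
    · exact Or.inr (Or.inl (hb))
    · exact Or.inl (hb)
    · exact Or.inr (Or.inr (C.2.2.2.2.2 hb))
    · exact Or.inr (Or.inl (C.2.2.2.2.1 hb))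
    · exact Or.inl (C.2.2.2.1 hb)
  exact comb _ _ _ _ _ _ f0 f1 f2 f3 f4 f5 f6 f7

/-! ### Assembling the argument -/

lemma mid_eq (a b c d : ℕ) (h : ∀ i : Fin 8, (a.testBit i).toNat + (b.testBit i).toNat =
    (c.testBit i).toNat + (d.testBit i).toNat) :
    (1 / 2 : ℝ) • vec (S a) + (1 / 2 : ℝ) • vec (S b) =
      (1 / 2 : ℝ) • vec (S c) + (1 / 2 : ℝ) • vec (S d) := by
  ext i
  simp only [Pi.add_apply, Pi.smul_apply, smul_eq_mul, vec_S]
  have hi := h i
  rcases h1 : a.testBit i with _ | _ <;> rcases h2 : b.testBit i with _ | _ <;>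
    rcases h3 : c.testBit i with _ | _ <;> rcases h4 : d.testBit i with _ | _ <;>
    simp_all

lemma mid_mem {N : Matroid (Fin 8)} {x y : Fin 8 → ℝ} (hx : x ∈ polytope N)
    (hy : y ∈ polytope N) : (1 / 2 : ℝ) • x + (1 / 2 : ℝ) • y ∈ polytope N :=
  (convex_convexHull ℝ _) hx hy (by norm_num) (by norm_num) (by norm_num)

lemma MM_S {m : ℕ} (h : m ∈ bM) : MM.IsBase (S m) := ⟨m, h, rfl⟩

lemma MM'_S {m : ℕ} (h : m ∈ bM') : MM'.IsBase (S m) := ⟨m, h, rfl⟩

lemma z1_mem : zpt 4 1 ∈ polytope MM := by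
  have h : zpt 4 1 = (1 / 2 : ℝ) • ((1 / 2 : ℝ) • vec (S 19) + (1 / 2 : ℝ) • vec (S 50)) +
      (1 / 2 : ℝ) • ((1 / 2 : ℝ) • vec (S 28) + (1 / 2 : ℝ) • vec (S 208)) := by
    ext i
    simp only [Pi.add_apply, Pi.smul_apply, smul_eq_mul, vec_S]
    fin_cases i <;> simp [zpt, Nat.testBit] <;> norm_num
  rw [h]
  exact mid_mem (mid_mem (vec_mem (MM_S (by decide))) (vec_mem (MM_S (by decide))))
    (mid_mem (vec_mem (MM_S (by decide))) (vec_mem (MM_S (by decide))))

lemma z2_mem : zpt 5 1 ∈ polytope MM := by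
  have h : zpt 5 1 = (1 / 2 : ℝ) • ((1 / 2 : ℝ) • vec (S 35) + (1 / 2 : ℝ) • vec (S 50)) +
      (1 / 2 : ℝ) • ((1 / 2 : ℝ) • vec (S 44) + (1 / 2 : ℝ) • vec (S 224)) := by
    ext i
    simp only [Pi.add_apply, Pi.smul_apply, smul_eq_mul, vec_S]
    fin_cases i <;> simp [zpt, Nat.testBit] <;> norm_num
  rw [h]
  exact mid_mem (mid_mem (vec_mem (MM_S (by decide))) (vec_mem (MM_S (by decide))))
    (mid_mem (vec_mem (MM_S (by decide))) (vec_mem (MM_S (by decide))))

lemma z3_mem : z3 ∈ polytope MM := by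
  have h : z3 = (1 / 2 : ℝ) • vec (S 50) +
      (1 / 2 : ℝ) • ((1 / 2 : ℝ) • vec (S 208) + (1 / 2 : ℝ) • vec (S 224)) := by
    ext i
    simp only [Pi.add_apply, Pi.smul_apply, smul_eq_mul, vec_S]
    fin_cases i <;> simp [z3, Nat.testBit] <;> norm_num
  rw [h]
  exact mid_mem (vec_mem (MM_S (by decide)))
    (mid_mem (vec_mem (MM_S (by decide))) (vec_mem (MM_S (by decide))))

lemma main {C : Set (Set (Fin 8 → ℝ))} (hC : IsSubdivision MM C) :
    polytope MM' ∉ C := by
  intro hM'C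
  obtain ⟨N₁, h1C, h1z, h1N⟩ := cover hC z1_mem
  obtain ⟨N₂, h2C, h2z, h2N⟩ := cover hC z2_mem
  obtain ⟨N₃, h3C, h3z, h3N⟩ := cover hC z3_mem
  have I4 := fun x hx => quad4_indep h1N h1z x hx
  have I5 := fun x hx => quad5_indep h2N h2z x hx
  -- the cell `N₁` on the octahedron at `4` with vertices `0, 1, 2, 3`
  have hO1 : (1 / 2 : ℝ) • vec (S 19) + (1 / 2 : ℝ) • vec (S 28) ∈ polytope N₁ := by
    rcases quad4 h1N h1z with h | h | h
    · exact mid_mem (vec_mem h.1) (vec_mem h.2)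
    · rw [mid_eq 19 28 22 25 (by decide)]
      exact mid_mem (vec_mem h.1) (vec_mem h.2)
    · rw [mid_eq 19 28 26 21 (by decide)]
      exact mid_mem (vec_mem h.1) (vec_mem h.2)
  have c1 := compat hC hM'C h1C (MM'_S (m := 19) (by decide)) (MM'_S (m := 28) (by decide))
    rfl hO1
  have c2 := compat hC hM'C h1C (MM'_S (m := 21) (by decide)) (MM'_S (m := 26) (by decide))
    (mid_eq 19 28 21 26 (by decide)) hO1
  -- move to the octahedron at `4` with vertices `1, 5, 6, 7`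
  have d50 : N₁.IsBase (S 50) := par h1N 4 5 0 1 (I4 5 (by decide)) c1.1 (by decide)
  have d88 : N₁.IsBase (S 88) := par h1N 4 6 2 3 (I4 6 (by decide)) c1.2 (by decide)
  have d208 : N₁.IsBase (S 208) := par h1N 4 7 3 6 (I4 7 (by decide)) d88 (by decide)
  have d52 : N₁.IsBase (S 52) := par h1N 4 5 0 2 (I4 5 (by decide)) c2.1 (by decide)
  have d112 : N₁.IsBase (S 112) := par h1N 4 6 2 5 (I4 6 (by decide)) d52 (by decide)
  have d146 : N₁.IsBase (S 146) := par h1N 4 7 3 1 (I4 7 (by decide)) c2.2 (by decide)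
  -- the cell `N₃`
  have hO2 : (1 / 2 : ℝ) • vec (S 50) + (1 / 2 : ℝ) • vec (S 208) ∈ polytope N₃ := by
    rcases penta h3N h3z with h | h | h
    · exact mid_mem (vec_mem h.1) (vec_mem h.2)
    · rw [mid_eq 50 208 112 146 (by decide)]
      exact mid_mem (vec_mem h.1) (vec_mem h.2)
    · rw [mid_eq 50 208 176 82 (by decide)]
      exact mid_mem (vec_mem h.1) (vec_mem h.2)
  have e1 := compat hC h1C h3C d50 d208 rfl hO2
  have e2 := compat hC h1C h3C d112 d146 (mid_eq 50 208 112 146 (by decide)) hO2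
  have e224 : N₃.IsBase (S 224) := (penta_tr h3N h3z).1 e1.2
  have e162 : N₃.IsBase (S 162) := (penta_tr h3N h3z).2.1 e2.2
  -- the cell `N₂` on the octahedron at `5` with vertices `0, 1, 2, 3`
  have hO4 : (1 / 2 : ℝ) • vec (S 35) + (1 / 2 : ℝ) • vec (S 44) ∈ polytope N₂ := by
    rcases quad5 h2N h2z with h | h | h
    · exact mid_mem (vec_mem h.1) (vec_mem h.2)
    · rw [mid_eq 35 44 38 41 (by decide)]
      exact mid_mem (vec_mem h.1) (vec_mem h.2)
    · rw [mid_eq 35 44 42 37 (by decide)]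
      exact mid_mem (vec_mem h.1) (vec_mem h.2)
  have g1 := compat hC hM'C h2C (MM'_S (m := 35) (by decide)) (MM'_S (m := 44) (by decide))
    rfl hO4
  have k50 : N₂.IsBase (S 50) := par h2N 5 4 0 1 (I5 4 (by decide)) g1.1 (by decide)
  have k168 : N₂.IsBase (S 168) := par h2N 5 7 2 3 (I5 7 (by decide)) g1.2 (by decide)
  have k224 : N₂.IsBase (S 224) := par h2N 5 6 3 7 (I5 6 (by decide)) k168 (by decide)
  have hO3 : (1 / 2 : ℝ) • vec (S 50) + (1 / 2 : ℝ) • vec (S 224) ∈ polytope N₂ :=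
    mid_mem (vec_mem k50) (vec_mem k224)
  have g2 := compat hC h3C h2C e2.1 e162 (mid_eq 50 224 112 162 (by decide)) hO3
  have k97 : N₂.IsBase (S 97) := par h2N 5 0 4 6 (I5 0 (by decide)) g2.1 (by decide)
  have k41 : N₂.IsBase (S 41) := par h2N 5 3 6 0 (I5 3 (by decide)) k97 (by decide)
  have k38 : N₂.IsBase (S 38) := par h2N 5 2 7 1 (I5 2 (by decide)) g2.2 (by decide)
  have hfin := compat hC h2C hM'C k41 k38 rfl (by
    rw [mid_eq 41 38 35 44 (by decide)]
    exact mid_mem (vec_mem (MM'_S (by decide))) (vec_mem (MM'_S (by decide))))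
  exact not_MM' (by norm_num) (by decide) hfin.1

lemma conn_aux {M : Matroid (Fin 8)} (hE : M.E = univ) (h : ∀ m ∈ bM', M.IsBase (S m)) :
    IsConn M := by
  apply isConn_of_star hE
  have h012 : M.IsBase {0, 1, 2} := by
    have := h (tri 0 1 2) (by decide)
    rwa [S_tri] at this
  have h024 : M.IsBase {0, 2, 4} := by
    have := h (tri 0 2 4) (by decide)
    rwa [S_tri] at this
  have h124 : M.IsBase {1, 2, 4} := by
    have := h (tri 1 2 4) (by decide)
    rwa [S_tri] at this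
  have h014 : M.IsBase {0, 1, 4} := by
    have := h (tri 0 1 4) (by decide)
    rwa [S_tri] at this
  have h214 : M.IsBase {2, 1, 4} := by
    have := h (tri 2 1 4) (by decide)
    rwa [S_tri] at this
  have hy12 : ∀ y : Fin 8, y ≠ 0 → y ≠ 1 → y ≠ 2 → M.IsBase {y, 1, 2} := by
    intro y h0 h1 h2
    have h3 : ∀ y : Fin 8, y ≠ 0 → y ≠ 1 → y ≠ 2 → tri y 1 2 ∈ bM' := by decide
    have := h _ (h3 y h0 h1 h2)
    rwa [S_tri] at this
  intro y hy
  by_cases h1 : y = 1
  · subst h1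
    exact ⟨{2, 4}, h024, h124, by decide, by decide⟩
  by_cases h2 : y = 2
  · subst h2
    exact ⟨{1, 4}, h014, h214, by decide, by decide⟩
  · exact ⟨{1, 2}, h012, hy12 y hy h1 h2, by decide, by
      simp only [mem_insert_iff, mem_singleton_iff, not_or]; exact ⟨h1, h2⟩⟩

lemma polytope_ssubset : polytope MM' ⊂ polytope MM := by
  constructor
  · apply convexHull_mono
    rintro _ ⟨B, hB, rfl⟩
    exact ⟨B, MM'_sub_MM hB, rfl⟩
  · intro h
    have h1 : MM.IsBase (S 25) := MM_S (by decide)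
    exact not_MM' (m := 25) (by norm_num) (by decide) (isBase_of_vec_mem (h (vec_mem h1)))

/-- **Positive answer to Q1.**  There are two connected matroids `M` and `M'` on the same ground
set with `P_{M'} ⊊ P_M` such that `P_{M'}` is not a cell of any matroid subdivision of `P_M`. -/
theorem result : ∃ (n : ℕ) (M M' : Matroid (Fin n)), M.E = univ ∧ M'.E = univ ∧
    IsConn M ∧ IsConn M' ∧ polytope M' ⊂ polytope M ∧
    ∀ C : Set (Set (Fin n → ℝ)), IsSubdivision M C → ¬ Maximal (· ∈ C) (polytope M') :=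
  ⟨8, MM, MM', rfl, rfl, conn_aux rfl fun _ hm => MM'_sub_MM (MM'_S hm),
    conn_aux rfl fun _ hm => MM'_S hm, polytope_ssubset,
    fun _ hC hmax => main hC hmax.1⟩

end Pool.Agent.Results.MP_454fc7_co.NoCell
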